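import Pool.Agent.N733.TG.M
import Pool.Agent.Zk66.Near
import Pool.Agent.Results.MP_13bc7b_nt.AlmostAllEndomorphisms

/-!
# ALL endomorphisms of projective space with integral coefficients near the values of arithmetic functions have no preperiodic
# points of bounded degree, for almost all tuples of arguments

Let `N, D ≥ 1` and `d ≥ d₀(N, D)`, and let `Q = (N + 1) binom(N + d, N)` be the number of the coefficients of a system of
`N + 1` forms of degree `d` in `N + 1` variables. For each of the `Q` coefficients let `Φ_p` be a positive multiplicative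
function of at most polynomial growth with `Φ_p l ≤ M l` and different values at the large primes `l` (for example Euler's
function or the sum of the divisors; they may be different or equal) and `α_p` a nonzero real number, and let `Q σ < N`. For
all `m` in `[1, X]^Q` but `X^Q / (log X)^U`, for every `U`: EVERY endomorphism of `P^N` of degree `d` given by forms with
integral coefficients `c_p` such that `|c_p - α_p Φ_p(m_p)| ≤ c w ^ σ` for all `p`, `w` the largest of the `Φ_p(m_p)`,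
increases the height of every point of `P^N(K)`, for every number field `K` of degree at most `D`, and so it has no preperiodic
point over any number field of degree at most `D`.

The values of the functions are taken with very large multiplicities (Euler's function takes some values `v` more than
`v ^ (7/10)` times), and almost all of them lie in a set of density zero which depends on the function, while the starting
result `AlmostAllEndomorphisms` bounds the number of the exceptional systems with coefficients up to `X` by `O(X ^ (Q - N))`.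
So this does not follow from the size of the exceptional set.

Proof. `AlmostAllEndomorphisms`, and the tool of helper733 for tuples of values of multiplicative functions
(`Pool.Agent.N733.TG`): write `m_p = a_p b_p`, `a_p` composed of the small primes; for most `m` the `a_p` are at most `X^η`, and
`Φ_p(b_p)` is taken at most `X^o(1)` times in mean square.
-/

set_option autoImplicit false

open MvPolynomial Height Filter

namespace Pool.Agent.Results.MP_13bc7b_nt.ArithmeticEndomorphisms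

open Pool.Agent.W276.GE (E fs exists_fs PS_finite)
open Pool.Agent.N733.TG (LM lm_totient lm_sigma keep_tuples2)
open Pool.Agent.Results.MP_13bc7b_nt.AlmostAllEndomorphisms (IsMorphism IncreasesHeights HasPreperiodicPoint Sys)

/-- `F` is a system of `N + 1` forms of degree `d` whose integral coefficients differ by at most `ρ` from the `x p`;
`E (N + 1) d` is the set of the exponents `α` with sum `d`. -/
def Near {N d : ℕ} (ρ : ℝ) (x : Fin (N + 1) × E (N + 1) d → ℝ) (F : Fin (N + 1) → MvPolynomial (Fin (N + 1)) ℤ) : Prop :=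
  (∀ i, (F i).IsHomogeneous d) ∧
    ∀ (i : Fin (N + 1)) (α : E (N + 1) d), |(((F i).coeff (fs α) : ℤ) : ℝ) - x (i, α)| ≤ ρ

lemma mem_sys {N d : ℕ} {F : Fin (N + 1) → MvPolynomial (Fin (N + 1)) ℤ} (hF : ∀ i, (F i).IsHomogeneous d) {X : ℝ}
    (hX : ∀ p : Fin (N + 1) × E (N + 1) d, |(((F p.1).coeff (fs p.2) : ℤ) : ℝ)| ≤ X) : F ∈ Sys N d ⌊X⌋₊ := by
  intro i
  refine ⟨hF i, fun m => ?_⟩
  by_cases h : m.degree = d
  · obtain ⟨α, rfl⟩ := exists_fs h
    have h1 := hX (i, α)
    have h2 : ((F i).coeff (fs α)).natAbs ≤ ⌊X⌋₊ := Nat.le_floor (by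
      rw [Nat.cast_natAbs]
      push_cast
      exact h1)
    rw [Int.abs_eq_natAbs]
    exact_mod_cast h2
  · rw [(hF i).coeff_eq_zero h]
    simp

/-- **Theorem.** For all `N, D ≥ 1` there is `d₀` such that for all `d ≥ d₀` the following holds; `Q = (N + 1) binom(N + d, N)`
is the number of the coefficients. Let `Q σ < N`, `σ ≥ 0`, let the `Φ_p` be multiplicative and positive, of at most polynomial
growth, with `Φ_p l ≤ M l` at the large primes `l`, and injective there, and let the `α_p` be nonzero real numbers. For all `c`,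
`U` and all large `X`, for all `m ∈ [1, X]^Q` but `X^Q / (log X)^U`, EVERY endomorphism `F` of `P^N` of degree `d` with integral
coefficients `c_p`, `|c_p - α_p Φ_p(m_p)| ≤ c w ^ σ` for all `p`, `w = max_p Φ_p(m_p)`, increases the height of every point of
`P^N(K)` for every number field `K` of degree at most `D`, and has no preperiodic point in `P^N(K)`. Euler's function and the
sum of the divisors are examples of such functions `Φ_p`. -/
theorem result :
    (∀ N D : ℕ, 1 ≤ N → 1 ≤ D → ∃ d₀ : ℕ, ∀ d : ℕ, d₀ ≤ d →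
      (Fintype.card (Fin (N + 1) × E (N + 1) d) = (N + 1) * (N + d).choose N) ∧
      ∀ σ : ℝ, 0 ≤ σ → ((N : ℝ) + 1) * (N + d).choose N * σ < N →
      ∀ Φ : Fin (N + 1) × E (N + 1) d → ℕ → ℕ, (∀ p, LM (Φ p)) →
      ∀ α : Fin (N + 1) × E (N + 1) d → ℝ, (∀ p, α p ≠ 0) → ∀ (c : ℝ) (U : ℕ), ∃ X₀ : ℕ, ∀ X : ℕ, X₀ ≤ X →
        ({m : Fin (N + 1) × E (N + 1) d → ℕ | (∀ p, 1 ≤ m p ∧ m p ≤ X) ∧
          ¬ ∀ F : Fin (N + 1) → MvPolynomial (Fin (N + 1)) ℤ,
            Near (c * (Finset.univ.sup fun p => Φ p (m p) : ℕ) ^ σ) (fun p => α p * Φ p (m p)) F → IsMorphism F →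
              IncreasesHeights D F ∧ ¬ HasPreperiodicPoint D F}.ncard : ℝ) ≤
          (X : ℝ) ^ ((N + 1) * (N + d).choose N) / Real.log X ^ U) ∧
    LM Nat.totient ∧ LM (fun m => ∑ d ∈ m.divisors, d) := by
  refine ⟨fun N D hN hD => ?_, lm_totient, lm_sigma⟩
  obtain ⟨d₀, hd₀⟩ := AlmostAllEndomorphisms.result N D hN hD
  refine ⟨d₀, fun d hd => ?_⟩
  obtain ⟨-, hdyn, ⟨C, hC0, hC⟩, -⟩ := hd₀ d hd
  have hcard : Fintype.card (Fin (N + 1) × E (N + 1) d) = (N + 1) * (N + d).choose N := by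
    have h1 := Pool.Agent.W276.GE.card_E N d
    rw [Fintype.card_prod, Fintype.card_fin]
    simpa using h1
  refine ⟨hcard, fun σ hσ hlt Φ hΦ α hα c U => ?_⟩
  obtain ⟨Q, hQ⟩ : ∃ Q : ℕ, Q = (N + 1) * (N + d).choose N := ⟨_, rfl⟩
  have hQr : ((N : ℝ) + 1) * (N + d).choose N = Q := by
    rw [hQ]
    push_cast
    ring
  have hQN : N ≤ Q := by
    rw [hQ]
    have : 1 ≤ (N + d).choose N := Nat.choose_pos (by omega)
    nlinarith
  have hN1 : (1 : ℝ) ≤ N := by exact_mod_cast hN
  have hQNr : (N : ℝ) ≤ Q := by exact_mod_cast hQN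
  have hQ1 : 1 ≤ Q := hN.trans hQN
  have hQ1r : (1 : ℝ) ≤ Q := by exact_mod_cast hQ1
  have hs : (0 : ℝ) ≤ (Q : ℝ) - N := by linarith
  rw [← hQ] at hC
  rw [hQr] at hlt
  rw [← hQ]
  have hσ1 : σ ≤ 1 := by nlinarith
  obtain ⟨e⟩ : Nonempty ((Fin (N + 1) × E (N + 1) d) ≃ Fin Q) :=
    ⟨Fintype.equivFinOfCardEq (hcard.trans hQ.symm)⟩
  -- the exceptional vectors
  obtain ⟨S, hS⟩ : ∃ S : Set (Fin Q → ℤ), S = {v : Fin Q → ℤ | ∃ F : Fin (N + 1) → MvPolynomial (Fin (N + 1)) ℤ,
      (∀ i, (F i).IsHomogeneous d) ∧ IsMorphism F ∧ ¬ IncreasesHeights D F ∧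
        v = fun j => (F (e.symm j).1).coeff (fs (e.symm j).2)} := ⟨_, rfl⟩
  have hthin : Pool.Agent.N671.DA.Thin S ((Q : ℝ) - N) := by
    intro ε hε
    refine ⟨C, fun X hX => ?_⟩
    have hX0 : 0 < X := by linarith
    have hfin : {F | F ∈ Sys N d ⌊X⌋₊ ∧ IsMorphism F ∧ ¬ IncreasesHeights D F}.Finite :=
      (PS_finite N d ⌊X⌋₊).subset fun F hF => hF.1
    have hsub : {v : Fin Q → ℤ | v ∈ S ∧ ∀ i, |(v i : ℝ)| ≤ X} ⊆
        (fun F : Fin (N + 1) → MvPolynomial (Fin (N + 1)) ℤ => fun j : Fin Q =>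
          (F (e.symm j).1).coeff (fs (e.symm j).2)) ''
          {F | F ∈ Sys N d ⌊X⌋₊ ∧ IsMorphism F ∧ ¬ IncreasesHeights D F} := by
      rintro v ⟨hv, hvX⟩
      rw [hS] at hv
      obtain ⟨F, g1, g2, g3, rfl⟩ := hv
      refine ⟨F, ⟨mem_sys g1 fun p => ?_, g2, g3⟩, rfl⟩
      have := hvX (e p)
      simpa using this
    have h1 := (Set.ncard_le_ncard hsub (hfin.image _)).trans (Set.ncard_image_le hfin)
    have hfl : 1 ≤ ⌊X⌋₊ := Nat.le_floor (by exact_mod_cast hX)
    have h2 := (hC ⌊X⌋₊ hfl).2.1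
    have h3 : (({v : Fin Q → ℤ | v ∈ S ∧ ∀ i, |(v i : ℝ)| ≤ X}.ncard : ℕ) : ℝ) ≤
        ({F | F ∈ Sys N d ⌊X⌋₊ ∧ IsMorphism F ∧ ¬ IncreasesHeights D F}.ncard : ℝ) := by
      exact_mod_cast h1
    refine h3.trans (h2.trans ?_)
    apply mul_le_mul_of_nonneg_left _ hC0.le
    calc (⌊X⌋₊ : ℝ) ^ (Q - N) ≤ X ^ (Q - N) :=
          pow_le_pow_left₀ (Nat.cast_nonneg _) (Nat.floor_le hX0.le) _
      _ = X ^ ((Q : ℝ) - N) := by
          rw [← Real.rpow_natCast, Nat.cast_sub hQN]
      _ ≤ X ^ ((Q : ℝ) - N + ε) := Real.rpow_le_rpow_of_exponent_le hX (by linarith)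
  obtain ⟨η, hη⟩ : ∃ η : ℝ, η = ((N : ℝ) - Q * σ) / 2 := ⟨_, rfl⟩
  have hη0 : 0 < η := by rw [hη]; linarith
  obtain ⟨C₀, hC₀⟩ := Pool.Agent.Zk66.NR.count hQ1 S hs hσ hσ1 hthin (fun j => α (e.symm j)) (fun j => hα _)
    (abs_nonneg c) hη0
  obtain ⟨N₀, hN₀⟩ := keep_tuples2 hQ1 (F := fun j => Φ (e.symm j)) (fun j => hΦ _) hη0 U C₀
  refine ⟨N₀, fun X hX => ?_⟩
  have h1 := hN₀ X hX _ (fun Y hY => (hC₀ Y hY).trans (le_of_eq (by rw [hη]; ring_nf)))
  refine le_trans ?_ h1
  have hfin : {m : Fin Q → ℕ | (∀ i, 1 ≤ m i ∧ m i ≤ X) ∧ ¬ ((∀ i, 2 ≤ Φ (e.symm i) (m i)) ∧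
      (fun i => Φ (e.symm i) (m i)) ∉ {w : Fin Q → ℕ | ∃ v ∈ S,
        ∀ i, |(v i : ℝ) - α (e.symm i) * w i| ≤ |c| * (Finset.univ.sup w : ℕ) ^ σ})}.Finite := by
    apply (Set.Finite.pi' fun _ : Fin Q => Set.finite_Icc 1 X).subset
    rintro m ⟨hm, _⟩
    exact fun i => hm i
  rw [Nat.cast_le]
  refine Set.ncard_le_ncard_of_injOn (fun m j => m (e.symm j)) ?_ ?_ hfin
  · rintro m ⟨hm, hbad⟩
    refine ⟨fun j => hm _, fun hgood => hbad fun F hnear hmor => ?_⟩
    have hinc : IncreasesHeights D F := by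
      by_contra hcon
      refine hgood.2 ⟨fun j => (F (e.symm j).1).coeff (fs (e.symm j).2), ?_, fun j => ?_⟩
      · rw [hS]
        exact ⟨F, hnear.1, hmor, hcon, rfl⟩
      · have hsup : (Finset.univ.sup fun j : Fin Q => Φ (e.symm j) (m (e.symm j))) =
            Finset.univ.sup fun p => Φ p (m p) := by
          apply le_antisymm
          · exact Finset.sup_le fun j _ => Finset.le_sup (f := fun p => Φ p (m p)) (Finset.mem_univ (e.symm j))
          · refine Finset.sup_le fun p _ => ?_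
            have := Finset.le_sup (f := fun j : Fin Q => Φ (e.symm j) (m (e.symm j))) (Finset.mem_univ (e p))
            simpa using this
        rw [hsup]
        refine (hnear.2 (e.symm j).1 (e.symm j).2).trans ?_
        exact mul_le_mul_of_nonneg_right (le_abs_self c) (by positivity)
    refine ⟨hinc, ?_⟩
    obtain ⟨X', hX'⟩ : ∃ X' : ℝ, ∀ p : Fin (N + 1) × E (N + 1) d, |(((F p.1).coeff (fs p.2) : ℤ) : ℝ)| ≤ X' :=
      ⟨∑ p : Fin (N + 1) × E (N + 1) d, |(((F p.1).coeff (fs p.2) : ℤ) : ℝ)|, fun p =>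
        Finset.single_le_sum (f := fun p : Fin (N + 1) × E (N + 1) d => |(((F p.1).coeff (fs p.2) : ℤ) : ℝ)|)
          (fun q _ => abs_nonneg _) (Finset.mem_univ p)⟩
    exact hdyn _ F (mem_sys hnear.1 hX') hmor hinc
  · intro m _ m' _ h
    funext p
    have := congrFun h (e p)
    simpa using this

end Pool.Agent.Results.MP_13bc7b_nt.ArithmeticEndomorphisms
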