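import Pool.Agent.R482.ST.Radial
import Pool.Agent.Results.MP_13bc7b_nt.AlmostAllEndomorphisms

/-!
# ALL endomorphisms of projective space with integral coefficients near the points of a sequence on almost every ray have no
# preperiodic points of bounded degree

Let `f_0, f_1, …` be positive functions on `(a, ∞)`, `a ≥ 0`, such that `f_n(x) / x` is nondecreasing and `f_n(x)` has exponent
of convergence at most `τ` for each `x > a`: for instance `v_n x` with `v_n > 0` of exponent of convergence `τ`, or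
`x ^ (v_n)` with `v_n ≥ 1` (`τ = 0`), or the iterates of a map `g` with `g(x) > x` and `g(x) / x` nondecreasing (`τ = 0`).
Let `N, D ≥ 1` and `d ≥ d₀(N, D)`, and let `Q = (N + 1) binom(N + d, N)` be the number of the coefficients of a system of
`N + 1` forms of degree `d` in `N + 1` variables. For `θ < 1` and all real systems `u` in `ℝ^Q`, `‖u‖ > a`, outside a set of
Hausdorff dimension at most `(Q - N + τ) / (1 - θ)`, which is a null set if `Q θ + τ < N`, and all `c`, for all but finitely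
many `n`: EVERY endomorphism of `P^N` of degree `d` given by forms whose integral coefficients differ by at most `c x ^ θ` from
those of `x u / ‖u‖`, `x = f_n(‖u‖)`, increases the height of every point of `P^N(K)`, for every number field `K` of degree at
most `D`, and so it has no preperiodic point over any number field of degree at most `D`.

For `f_n(x) = n x` (`τ = 1`) these are all the rational systems `F / n`, for ALL denominators `n`, at the distance at most
`c n ^ (θ - 1)` from `u`: almost every real endomorphism of `P^N` has only finitely many such approximations with a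
preperiodic point of degree at most `D`, for `θ < (N - 1) / Q`. Every `u` has infinitely many approximations with
`θ = - 1 / Q`. For `N = 1` and polynomials the starting files of MP_90787a_nt have such a theorem
(`ApproximationsOfRealPolynomials`). The starting result `AlmostAllEndomorphisms` bounds the number of the exceptions with
coefficients up to `H` by `O(H ^ (Q - N))`, which says nothing on a sparse sequence of windows.

Proof. `AlmostAllEndomorphisms`, and the theorem on thin sets of vectors and radial starshaped maps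
(`Pool/Agent/R482/ST/Radial`, helper482).
-/

set_option autoImplicit false

open MvPolynomial Height Filter MeasureTheory

namespace Pool.Agent.Results.MP_13bc7b_nt.StarshapedEndomorphisms

open Pool.Agent.W276.GE (E fs exists_fs PS_finite)
open Pool.Agent.Results.MP_13bc7b_nt.AlmostAllEndomorphisms (IsMorphism IncreasesHeights HasPreperiodicPoint Sys)

/-- the functions `f n` are positive on `(a, ∞)`, `a ≥ 0`, and `f n x / x` is nondecreasing there -/
def Starshaped (a : ℝ) (f : ℕ → ℝ → ℝ) : Prop :=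
  0 ≤ a ∧ ∀ n : ℕ, ∀ x y : ℝ, a < x → x ≤ y → 0 < f n x ∧ f n x / x ≤ f n y / y

/-- for each `x > a` the exponent of convergence of the sequence `f n x` is at most `τ` -/
def ExpLe (a : ℝ) (f : ℕ → ℝ → ℝ) (τ : ℝ) : Prop :=
  ∀ x : ℝ, a < x → ∀ t : ℝ, τ < t → Summable (fun n : ℕ => (f n x) ^ (-t))

/-- `F` is a system of `N + 1` forms of degree `d` whose integral coefficients differ by at most `ρ` from the components of
`(g ‖u‖ / ‖u‖) u`; `E (N + 1) d` is the set of the exponents `α` with sum `d`. -/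
def Near {N d : ℕ} (g : ℝ → ℝ) (ρ : ℝ) (u : Fin (N + 1) × E (N + 1) d → ℝ)
    (F : Fin (N + 1) → MvPolynomial (Fin (N + 1)) ℤ) : Prop :=
  (∀ i, (F i).IsHomogeneous d) ∧
    ∀ (i : Fin (N + 1)) (α : E (N + 1) d), |(((F i).coeff (fs α) : ℤ) : ℝ) - g ‖u‖ / ‖u‖ * u (i, α)| ≤ ρ

lemma mem_sys {N d : ℕ} {F : Fin (N + 1) → MvPolynomial (Fin (N + 1)) ℤ} (hF : ∀ i, (F i).IsHomogeneous d) {X : ℝ}
    (hX : ∀ p : Fin (N + 1) × E (N + 1) d, |(((F p.1).coeff (fs p.2) : ℤ) : ℝ)| ≤ X) : F ∈ Sys N d ⌊X⌋₊ := by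
  intro i
  refine ⟨hF i, fun m => ?_⟩
  by_cases h : m.degree = d
  · obtain ⟨α, rfl⟩ := exists_fs h
    have h1 := hX (i, α)
    have h2 : ((F i).coeff (fs α)).natAbs ≤ ⌊X⌋₊ := Nat.le_floor (by
      rw [Nat.cast_natAbs]
      push_cast
      exact h1)
    rw [Int.abs_eq_natAbs]
    exact_mod_cast h2
  · rw [(hF i).coeff_eq_zero h]
    simp

lemma nonempty_E (N d : ℕ) : Nonempty (Fin (N + 1) × E (N + 1) d) := by
  refine ⟨(0, ⟨Pi.single 0 d, ?_⟩)⟩
  rw [Finset.Nat.mem_antidiagonalTuple]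
  simp

/-- **Theorem.** For all `N, D ≥ 1` there is `d₀` such that for all `d ≥ d₀` the following holds; `Q = (N + 1) binom(N + d, N)`
is the number of the coefficients. Let the `f_n` be starshaped on `(a, ∞)` of exponent of convergence at most `τ ≥ 0`, and
`θ < 1`. There is a set `B` of Hausdorff dimension at most `(Q - N + τ) / (1 - θ)`, a null set if `Q θ + τ < N`, such that for
each real system `u` outside `B`, `‖u‖ > a`, each `c` and all but finitely many `n`, EVERY endomorphism `F` of `P^N` of degree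
`d` with integral coefficients near `(x / ‖u‖) u`, `x = f_n(‖u‖)` (`Near`, with `c x ^ θ`) increases the height of every point
of `P^N(K)` for every number field `K` of degree at most `D`, and has no preperiodic point in `P^N(K)`. The functions `v_n x`,
`v_n > 0`, are starshaped on `(0, ∞)`, of exponent `τ` if `v` has exponent of convergence at most `τ`; the functions
`x ^ (v_n)`, `v_n ≥ 1`, are starshaped on `(1, ∞)`, of exponent `0` if the sums of `exp (-t v_n)` converge for `t > 0`; and the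
iterates of a map `g` with `g(x) > x` for `x > a` and `g(x) / x` nondecreasing are starshaped on `(a, ∞)`, of exponent `0`. -/
theorem result :
    (∀ N D : ℕ, 1 ≤ N → 1 ≤ D → ∃ d₀ : ℕ, ∀ d : ℕ, d₀ ≤ d →
      (Fintype.card (Fin (N + 1) × E (N + 1) d) = (N + 1) * (N + d).choose N) ∧
      ∀ (f : ℕ → ℝ → ℝ) (a τ θ : ℝ), Starshaped a f → 0 ≤ τ → ExpLe a f τ → θ < 1 →
      ∃ B : Set (Fin (N + 1) × E (N + 1) d → ℝ),
        dimH B ≤ ENNReal.ofReal ((((N : ℝ) + 1) * (N + d).choose N - N + τ) / (1 - θ)) ∧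
        (((N : ℝ) + 1) * (N + d).choose N * θ + τ < N → volume B = 0) ∧
        ∀ u : Fin (N + 1) × E (N + 1) d → ℝ, a < ‖u‖ → u ∉ B → ∀ c : ℝ, ∃ n₀ : ℕ, ∀ n : ℕ, n₀ ≤ n →
          ∀ F : Fin (N + 1) → MvPolynomial (Fin (N + 1)) ℤ, Near (f n) (c * (f n ‖u‖) ^ θ) u F → IsMorphism F →
            IncreasesHeights D F ∧ ¬ HasPreperiodicPoint D F) ∧
    (∀ (v : ℕ → ℝ) (τ : ℝ), (∀ n, 0 < v n) → (∀ t : ℝ, τ < t → Summable (fun n : ℕ => (v n) ^ (-t))) →
      Starshaped 0 (fun n x => v n * x) ∧ ExpLe 0 (fun n x => v n * x) τ) ∧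
    (∀ v : ℕ → ℝ, (∀ n, 1 ≤ v n) → (∀ t : ℝ, 0 < t → Summable fun n : ℕ => Real.exp (-(t * v n))) →
      Starshaped 1 (fun n x => x ^ (v n)) ∧ ExpLe 1 (fun n x => x ^ (v n)) 0) ∧
    (∀ (a : ℝ) (g : ℝ → ℝ), 0 ≤ a → (∀ x y : ℝ, a < x → x ≤ y → g x / x ≤ g y / y) → (∀ x : ℝ, a < x → x < g x) →
      Starshaped a (fun n x => g^[n] x) ∧ ExpLe a (fun n x => g^[n] x) 0) := by
  refine ⟨fun N D hN hD => ?_, Pool.Agent.R482.ST.ex_mul, Pool.Agent.R482.ST.ex_pow, Pool.Agent.R482.ST.ex_orbit⟩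
  obtain ⟨d₀, hd₀⟩ := AlmostAllEndomorphisms.result N D hN hD
  refine ⟨d₀, fun d hd => ?_⟩
  obtain ⟨-, hdyn, ⟨C, hC0, hC⟩, -⟩ := hd₀ d hd
  have hcard : Fintype.card (Fin (N + 1) × E (N + 1) d) = (N + 1) * (N + d).choose N := by
    have h1 := Pool.Agent.W276.GE.card_E N d
    rw [Fintype.card_prod, Fintype.card_fin]
    simpa using h1
  refine ⟨hcard, fun f a τ θ hf hτ hv hθ => ?_⟩
  haveI := nonempty_E N d
  obtain ⟨Q, hQ⟩ : ∃ Q : ℕ, Q = (N + 1) * (N + d).choose N := ⟨_, rfl⟩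
  have hQr : ((N : ℝ) + 1) * (N + d).choose N = Q := by
    rw [hQ]
    push_cast
    ring
  have hQN : N ≤ Q := by
    rw [hQ]
    have : 1 ≤ (N + d).choose N := Nat.choose_pos (by omega)
    nlinarith
  have hs : (0 : ℝ) ≤ (Q : ℝ) - N := by
    have : (N : ℝ) ≤ Q := by exact_mod_cast hQN
    linarith
  rw [← hQ] at hC
  rw [hQr]
  obtain ⟨V, hV⟩ : ∃ V : (Fin (N + 1) → MvPolynomial (Fin (N + 1)) ℤ) → (Fin (N + 1) × E (N + 1) d → ℝ),
      V = fun F p => (((F p.1).coeff (fs p.2) : ℤ) : ℝ) := ⟨_, rfl⟩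
  have hnorm : ∀ (F : Fin (N + 1) → MvPolynomial (Fin (N + 1)) ℤ) (X : ℝ), ‖V F‖ ≤ X ↔
      ∀ p : Fin (N + 1) × E (N + 1) d, |(((F p.1).coeff (fs p.2) : ℤ) : ℝ)| ≤ X := by
    intro F X
    rw [pi_norm_le_iff_of_nonempty, hV]
    rfl
  obtain ⟨B, hB, h1⟩ := Pool.Agent.R482.ST.radial_windows (W := Fin (N + 1) × E (N + 1) d → ℝ)
    {F : Fin (N + 1) → MvPolynomial (Fin (N + 1)) ℤ | (∀ i, (F i).IsHomogeneous d) ∧ IsMorphism F ∧
      ¬ IncreasesHeights D F} V hf.1 hf.2 hv hs hτ hθ (fun ε hε => by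
      refine ⟨C, fun X hX => ?_⟩
      have hX0 : 0 < X := by linarith
      have hsub : {F | F ∈ {F : Fin (N + 1) → MvPolynomial (Fin (N + 1)) ℤ | (∀ i, (F i).IsHomogeneous d) ∧
          IsMorphism F ∧ ¬ IncreasesHeights D F} ∧ ‖V F‖ ≤ X} ⊆
          {F | F ∈ Sys N d ⌊X⌋₊ ∧ IsMorphism F ∧ ¬ IncreasesHeights D F} := by
        rintro F ⟨⟨g1, g2, g3⟩, g4⟩
        exact ⟨mem_sys g1 ((hnorm F X).1 g4), g2, g3⟩
      have hfin : {F | F ∈ Sys N d ⌊X⌋₊ ∧ IsMorphism F ∧ ¬ IncreasesHeights D F}.Finite :=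
        (PS_finite N d ⌊X⌋₊).subset fun F hF => hF.1
      refine ⟨hfin.subset hsub, ?_⟩
      have hfl : 1 ≤ ⌊X⌋₊ := Nat.le_floor (by exact_mod_cast hX)
      have h2 := (hC ⌊X⌋₊ hfl).2.1
      have h3 : (({F | F ∈ {F : Fin (N + 1) → MvPolynomial (Fin (N + 1)) ℤ | (∀ i, (F i).IsHomogeneous d) ∧
          IsMorphism F ∧ ¬ IncreasesHeights D F} ∧ ‖V F‖ ≤ X}.ncard : ℕ) : ℝ) ≤
          ({F | F ∈ Sys N d ⌊X⌋₊ ∧ IsMorphism F ∧ ¬ IncreasesHeights D F}.ncard : ℝ) := by
        exact_mod_cast Set.ncard_le_ncard hsub hfin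
      refine h3.trans (h2.trans ?_)
      apply mul_le_mul_of_nonneg_left _ hC0.le
      calc (⌊X⌋₊ : ℝ) ^ (Q - N) ≤ X ^ (Q - N) :=
            pow_le_pow_left₀ (Nat.cast_nonneg _) (Nat.floor_le hX0.le) _
        _ = X ^ ((Q : ℝ) - N) := by
            rw [← Real.rpow_natCast, Nat.cast_sub hQN]
        _ ≤ X ^ ((Q : ℝ) - N + ε) := Real.rpow_le_rpow_of_exponent_le hX (by linarith))
  refine ⟨B, hB, fun hlt => ?_, fun u hu huB c => ?_⟩
  · have hθ' : 0 < 1 - θ := by linarith
    have hQ0 : (0 : ℝ) < Q := by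
      have : (1 : ℝ) ≤ N := by exact_mod_cast hN
      linarith
    have h2 : ((Q : ℝ) - N + τ) / (1 - θ) < Q := by
      rw [div_lt_iff₀ hθ']
      nlinarith
    have h3 : dimH B < ((Q : ℕ) : ENNReal) := by
      refine hB.trans_lt ?_
      have h4 : ((Q : ℕ) : ENNReal) = ENNReal.ofReal (Q : ℝ) := by
        rw [ENNReal.ofReal_natCast]
      rw [h4]
      exact (ENNReal.ofReal_lt_ofReal_iff hQ0).2 h2
    have h4 : (volume : Measure (Fin (N + 1) × E (N + 1) d → ℝ)) = Measure.hausdorffMeasure (Q : ℝ) := by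
      have := hausdorffMeasure_pi_real (ι := Fin (N + 1) × E (N + 1) d)
      rw [hcard, ← hQ] at this
      exact this.symm
    rw [h4]
    have h5 := hausdorffMeasure_of_dimH_lt (s := B) (d := (Q : NNReal)) (by
      simpa using h3)
    simpa using h5
  · obtain ⟨n₀, h2⟩ := h1 u hu huB c
    refine ⟨n₀, fun n hn F hnear hmor => ?_⟩
    have hinc : IncreasesHeights D F := by
      by_contra hcon
      have h3 := h2 n hn F ⟨hnear.1, hmor, hcon⟩
      refine absurd h3 (not_lt.2 ?_)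
      rw [pi_norm_le_iff_of_nonempty, hV]
      exact fun p => hnear.2 p.1 p.2
    refine ⟨hinc, ?_⟩
    have hmem : F ∈ Sys N d ⌊‖V F‖⌋₊ := mem_sys hnear.1 ((hnorm F _).1 le_rfl)
    exact hdyn _ F hmem hmor hinc

end Pool.Agent.Results.MP_13bc7b_nt.StarshapedEndomorphisms
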