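import Pool.Agent.Zk42.PN.Main

/-!
# Uniform boundedness for skew products with unicritical fibres over a fixed or moving base

Let `K` be a number field and let `d ≥ 5` be odd, or `d ≥ 7` and `d ≡ 1 mod 3`.

1. Let `φ = (φ_0 : … : φ_M)` be an endomorphism of `P^M` of degree `d` over `K` all of whose periodic
   points in `P^M(K)` are fixed points, and let `m ≥ 0`. There is a constant `B` such that for ALL forms
   `G_1, …, G_m` of degree `d` in `x_0, …, x_M` over `K` the endomorphism
   `(φ_0(x) : … : φ_M(x) : y_1 ^ d + G_1(x) : … : y_m ^ d + G_m(x))` of `P^(M+m)` has at most `B`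
   preperiodic points in `P^(M+m)(K)`.
2. For all `m` there is a constant `B` such that for all `c` in `K` for which `x ^ d + c` has no
   periodic point in `K` besides fixed points, and ALL binary forms `G_1, …, G_m` of degree `d` over
   `K`, the endomorphism `(x_0 ^ d + c x_1 ^ d : x_1 ^ d : y_1 ^ d + G_1(x) : … : y_m ^ d + G_m(x))` of
   `P^(m+1)` has at most `B` preperiodic points in `P^(m+1)(K)`.
3. For `d ≡ 1 mod 3`, `d ≥ 7`, this applies to all but finitely many `c` in `K`.

Proof. Over a fixed point of the base, with the vector `w`, `φ(w) = l w`, the fibre maps are the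
polynomials `(y ^ d + G_j(w)) / l`; the numbers `G_j(w)` are arbitrary, but the leading coefficient
is from a finite set. The number of their preperiodic points in `K` is bounded uniformly by the
results on unicritical polynomials (`UniformInTheField`, `UnicriticalNumberFields` of the problem
MP_90787a_nt). A preperiodic point whose image in the base is not fixed is one of the at most `d ^ m`
inverse images of a point over the next point of the base, and the base has a bounded number of
preperiodic points (Northcott's theorem for endomorphisms of `P^M`, from the Nullstellensatz).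
-/

set_option autoImplicit false

namespace Pool.Agent.Results.MP_13bc7b_nt.UnicriticalFibres

open MvPolynomial

/-- the map on the vectors defined by a system of polynomials -/
noncomputable def act {K ι : Type} [Field K] (F : ι → MvPolynomial ι K) (x : ι → K) : ι → K :=
  fun i => eval x (F i)

/-- forms of degree `d` without a common zero but the origin: an endomorphism of projective
space -/
def IsEndomorphism {K ι : Type} [Field K] (d : ℕ) (F : ι → MvPolynomial ι K) : Prop :=
  (∀ i, (F i).IsHomogeneous d) ∧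
    ∀ x : ι → AlgebraicClosure K, (∀ i, aeval x (F i) = 0) → x = 0

/-- The point with the homogeneous coordinates `x` is preperiodic. -/
def IsPreperiodic {K ι : Type} [Field K] (F : ι → MvPolynomial ι K) (x : ι → K) : Prop :=
  ∃ m n : ℕ, m < n ∧ ∃ c : K, c ≠ 0 ∧ (act F)^[n] x = c • (act F)^[m] x

/-- At most `B` points of projective space over `K` are preperiodic. -/
def AtMost {K ι : Type} [Field K] (B : ℕ) (F : ι → MvPolynomial ι K) : Prop :=
  ∀ X : Finset (ι → K), (∀ x ∈ X, x ≠ 0) → (∀ x ∈ X, ∀ y ∈ X, ∀ c : K, x = c • y → x = y) →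
    (∀ x ∈ X, IsPreperiodic F x) → X.card ≤ B

/-- All periodic points over `K` are fixed points. -/
def OnlyFixed {K ι : Type} [Field K] (F : ι → MvPolynomial ι K) : Prop :=
  ∀ x : ι → K, x ≠ 0 → ∀ n : ℕ, 0 < n → (∃ c : K, (act F)^[n] x = c • x) →
    ∃ c : K, act F x = c • x

/-- `(φ(x) : y_1 ^ d + G_1(x) : … : y_m ^ d + G_m(x))` -/
noncomputable def skew {K : Type} [Field K] {M m : ℕ}
    (φ : Fin (M + 1) → MvPolynomial (Fin (M + 1)) K)
    (G : Fin m → MvPolynomial (Fin (M + 1)) K) (d : ℕ) :
    Fin (M + 1) ⊕ Fin m → MvPolynomial (Fin (M + 1) ⊕ Fin m) K :=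
  Sum.elim (fun i => rename Sum.inl (φ i)) fun j => X (Sum.inr j) ^ d + rename Sum.inl (G j)

/-- `(x_0 ^ d + c x_1 ^ d : x_1 ^ d)` -/
noncomputable def base {K : Type} [Field K] (c : K) (d : ℕ) :
    Fin (1 + 1) → MvPolynomial (Fin (1 + 1)) K :=
  ![X 0 ^ d + C c * X 1 ^ d, X 1 ^ d]

/-- `x ^ d + c` has no periodic point in `K` besides fixed points. -/
def NoCycles {K : Type} [Field K] (c : K) (d : ℕ) : Prop :=
  ∀ (x : K) (n : ℕ), 0 < n → (fun x : K => x ^ d + c)^[n] x = x → x ^ d + c = x

lemma endo_skew {K : Type} [Field K] {M m d : ℕ} (hd : 0 < d)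
    {φ : Fin (M + 1) → MvPolynomial (Fin (M + 1)) K}
    {G : Fin m → MvPolynomial (Fin (M + 1)) K} (hφ : IsEndomorphism d φ)
    (hG : ∀ j, (G j).IsHomogeneous d) : IsEndomorphism d (skew φ G d) := by
  refine ⟨?_, Pool.Agent.Zk42.PN.mor_skew hd hφ.2 hG⟩
  rintro (i | j)
  · exact (hφ.1 i).rename_isHomogeneous
  · refine IsHomogeneous.add ?_ (hG j).rename_isHomogeneous
    have := (isHomogeneous_X K (Sum.inr j : Fin (M + 1) ⊕ Fin m)).pow d
    rwa [one_mul] at this

theorem result :
    -- a fixed base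
    (∀ d : ℕ, (5 ≤ d ∧ Odd d ∨ 7 ≤ d ∧ d % 3 = 1) →
      ∀ (K : Type) [Field K] [NumberField K] (M m : ℕ)
        (φ : Fin (M + 1) → MvPolynomial (Fin (M + 1)) K), IsEndomorphism d φ → OnlyFixed φ →
      ∃ B : ℕ, ∀ G : Fin m → MvPolynomial (Fin (M + 1)) K, (∀ j, (G j).IsHomogeneous d) →
        IsEndomorphism d (skew φ G d) ∧ AtMost B (skew φ G d)) ∧
    -- a moving base
    (∀ d : ℕ, (5 ≤ d ∧ Odd d ∨ 7 ≤ d ∧ d % 3 = 1) →
      ∀ (K : Type) [Field K] [NumberField K] (m : ℕ),
      ∃ B : ℕ, ∀ c : K, NoCycles c d →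
        ∀ G : Fin m → MvPolynomial (Fin (1 + 1)) K, (∀ j, (G j).IsHomogeneous d) →
        IsEndomorphism d (skew (base c d) G d) ∧ AtMost B (skew (base c d) G d)) ∧
    (∀ d : ℕ, 7 ≤ d → d % 3 = 1 → ∀ (K : Type) [Field K] [NumberField K],
      {c : K | ¬ NoCycles c d}.Finite) := by
  have hpos : ∀ d : ℕ, (5 ≤ d ∧ Odd d ∨ 7 ≤ d ∧ d % 3 = 1) → 0 < d := by
    intro d h
    rcases h with h | h <;> omega
  refine ⟨?_, ?_, ?_⟩
  · intro d hd K _ _ M m φ hφ hfix
    obtain ⟨B, hB⟩ := Pool.Agent.Zk42.PN.skew_fixed hd K M m φ hφ.1 hφ.2 hfix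
    exact ⟨B, fun G hG => ⟨endo_skew (hpos d hd) hφ hG, hB G hG⟩⟩
  · intro d hd K _ _ m
    obtain ⟨B, hB⟩ := Pool.Agent.Zk42.PN.skew_moving hd K m
    have e : ∀ c : K, (Pool.Agent.Zk42.UC.fu 1 c d) = fun x : K => x ^ d + c := by
      intro c
      funext x
      show 1 * x ^ d + c = x ^ d + c
      rw [one_mul]
    refine ⟨B, fun c hc G hG => ⟨endo_skew (hpos d hd) ⟨Pool.Agent.Zk42.PN.bs_hom c,
      Pool.Agent.Zk42.PN.bs_mor (hpos d hd) c⟩ hG, hB c ?_ G hG⟩⟩
    rw [e]
    exact hc
  · intro d hd hd3 K _ _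
    obtain ⟨B, E, hE⟩ :=
      Pool.Agent.Results.MP_90787a_nt.UnicriticalNumberFields.result.1 d hd hd3 K
    refine E.finite_toSet.subset fun c hc => ?_
    by_contra hcE
    apply hc
    intro x n hn hx
    have hmem : x ∈ Pool.Agent.Results.MP_90787a_nt.UnicriticalNumberFields.preperiodic
        (fun x : K => x ^ d + c) := ⟨0, n, hn, hx.symm⟩
    rcases (hE c).2 hcE with h | ⟨w, hw, h⟩
    · rw [h] at hmem
      exact absurd hmem (Set.notMem_empty x)
    · rw [h] at hmem
      have h1 : x ^ d = w ^ d := hmem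
      have h2 : x ^ d + c = w := by
        rw [h1, hw]
      have h3 : (fun x : K => x ^ d + c)^[n] x = w := by
        obtain ⟨k, rfl⟩ : ∃ k, n = k + 1 := ⟨n - 1, by omega⟩
        rw [Function.iterate_succ_apply, h2]
        exact Function.iterate_fixed hw k
      rw [hx] at h3
      rw [h3, hw]

end Pool.Agent.Results.MP_13bc7b_nt.UnicriticalFibres
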