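import Pool.Agent.Zk42.UT.PN

/-!
# Unicritical maps of projective spaces: a bound for the number of the rational preperiodic points
which depends on the field only through its degree and a class group

Let `d ≥ 5` be odd, `p = 2` and `n = d`, or let `d ≥ 4`, `d ≡ 1 mod 3`, `p = 3` and `n = 3 d`; so `p`
divides `d - 1`.

1. For all `D` and `R` there is a constant `B` such that for ALL number fields `K` with `[K : ℚ] ≤ D`
   for which at most `R` ideal classes of `K(ζ_n)` are killed by `p`, for all `N` and ALL
   `c_1, …, c_N` in `K`, the endomorphism `(x_0 ^ d : x_1 ^ d + c_1 x_0 ^ d : … : x_N ^ d + c_N x_0 ^ d)`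
   of `P^N` has at most `(N + 1) B ^ N` preperiodic points in `P^N(K)`. For `N = 1` these are the
   polynomials `x ^ d + c`.
2. For all `D`, `R`, `M`, `m` and `B₀` there is a constant `B` such that for all such fields `K`, for all
   endomorphisms `φ` of `P^M` of degree `d` over `K` which have at most `B₀` preperiodic points in
   `P^M(K)` and for which `φ(w) = l ^ p w` with some `l` in `K` whenever `w` represents a periodic
   point over `K`, and for ALL forms `G_1, …, G_m` of degree `d` in `x_0, …, x_M` over `K`, the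
   endomorphism `(φ(x) : y_1 ^ d + G_1(x) : … : y_m ^ d + G_m(x))` of `P^(M + m)` has at most `B`
   preperiodic points in `P^(M + m)(K)`.

The case `p = 2`, `N = 1` is our result `UniformInTheField` of MP_90787a_nt (complete `2`-descent on
twists of an elliptic curve). The case `p = 3` is new also for `N = 1`. Let `L = K(ζ_(3 d))`, let `Σ` be
the set of the primes above `2 d`. The ratio `t` of two periodic points of `x ^ d + c` has the property
that the `(t - ζ) / (t - ζ')` are cubes times elements of a finite group `L(Σ, 3)` of bounded order, for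
all `d`-th roots of unity `ζ, ζ' ≠ 1`; this is the property of the reduction at the primes outside `Σ`
(`3` divides `d - 1`). With three roots of unity (`d ≥ 4`) one gets a point of a curve
`y² = x³ + m²` over `L`, where `m` is a unit outside `Σ` up to cubes. The rank of its group is bounded by
a descent with the endomorphism `P ↦ P - [ω] P` of degree three (`y - m` modulo cubes). The curve is a
cubic twist of a fixed curve with complex multiplication; the points are measured by the canonical
height of that curve over `L(∛k, ∛n)`. The gap principle (at the places where `c` is large the ratios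
are close to `d`-th roots of unity, and among four points near the same root of unity two repel each
other in the curve) and a packing argument in the Mordell–Weil lattice bound the number of the ratios
for `c` of large height, and Northcott's theorem for the numbers of bounded degree does the rest.
-/

set_option autoImplicit false

namespace Pool.Agent.Results.MP_13bc7b_nt.UniformInTheField

open MvPolynomial NumberField

/-- the map on the vectors defined by a system of polynomials -/
noncomputable def act {K ι : Type} [Field K] (F : ι → MvPolynomial ι K) (x : ι → K) : ι → K :=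
  fun i => eval x (F i)

/-- forms of degree `d` without a common zero but the origin: an endomorphism of projective
space -/
def IsEndomorphism {K ι : Type} [Field K] (d : ℕ) (F : ι → MvPolynomial ι K) : Prop :=
  (∀ i, (F i).IsHomogeneous d) ∧
    ∀ x : ι → AlgebraicClosure K, (∀ i, aeval x (F i) = 0) → x = 0

/-- The point with the homogeneous coordinates `x` is preperiodic. -/
def IsPreperiodic {K ι : Type} [Field K] (F : ι → MvPolynomial ι K) (x : ι → K) : Prop :=
  ∃ i j : ℕ, i < j ∧ ∃ c : K, c ≠ 0 ∧ (act F)^[j] x = c • (act F)^[i] x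

/-- At most `B` points of projective space over `K` are preperiodic. -/
def AtMost {K ι : Type} [Field K] (B : ℕ) (F : ι → MvPolynomial ι K) : Prop :=
  ∀ X : Finset (ι → K), (∀ x ∈ X, x ≠ 0) → (∀ x ∈ X, ∀ y ∈ X, ∀ c : K, x = c • y → x = y) →
    (∀ x ∈ X, IsPreperiodic F x) → X.card ≤ B

/-- If the vector `x ≠ 0` over `K` represents a periodic point, then `F(x) = l ^ p x` with some `l`
in `K`. -/
def PeriodicFixed {K ι : Type} [Field K] (p : ℕ) (F : ι → MvPolynomial ι K) : Prop :=
  ∀ x : ι → K, x ≠ 0 → ∀ k : ℕ, 0 < k → (∃ c : K, (act F)^[k] x = c • x) →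
    ∃ l : K, act F x = l ^ p • x

/-- `(x_0 ^ d : x_1 ^ d + c_1 x_0 ^ d : … : x_N ^ d + c_N x_0 ^ d)` -/
noncomputable def split {K : Type} [Field K] {N : ℕ} (c : Fin N → K) (d : ℕ) :
    Fin (N + 1) → MvPolynomial (Fin (N + 1)) K :=
  Fin.cons (X 0 ^ d) fun i => X i.succ ^ d + C (c i) * X 0 ^ d

/-- `(φ(x) : y_1 ^ d + G_1(x) : … : y_m ^ d + G_m(x))` -/
noncomputable def skew {K : Type} [Field K] {M m : ℕ}
    (φ : Fin (M + 1) → MvPolynomial (Fin (M + 1)) K)
    (G : Fin m → MvPolynomial (Fin (M + 1)) K) (d : ℕ) :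
    Fin (M + 1) ⊕ Fin m → MvPolynomial (Fin (M + 1) ⊕ Fin m) K :=
  Sum.elim (fun i => rename Sum.inl (φ i)) fun j => X (Sum.inr j) ^ d + rename Sum.inl (G j)

/-- the number of the elements `g` of the class group of `K(ζ_n)` with `g ^ p = 1` -/
noncomputable def classes (p n : ℕ) (K : Type) [Field K] [NumberField K] : ℕ :=
  Nat.card {g : ClassGroup (𝓞 (CyclotomicField n K)) // g ^ p = 1}

/-- `d ≥ 5` odd, `p = 2`, `n = d`, or `d ≥ 4`, `d ≡ 1 mod 3`, `p = 3`, `n = 3 d` -/
def Admissible (d p n : ℕ) : Prop :=
  5 ≤ d ∧ d % 2 = 1 ∧ p = 2 ∧ n = d ∨ 4 ≤ d ∧ d % 3 = 1 ∧ p = 3 ∧ n = 3 * d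

lemma endo_skew {K : Type} [Field K] {M m d : ℕ} (hd : 0 < d)
    {φ : Fin (M + 1) → MvPolynomial (Fin (M + 1)) K}
    {G : Fin m → MvPolynomial (Fin (M + 1)) K} (hφ : IsEndomorphism d φ)
    (hG : ∀ j, (G j).IsHomogeneous d) : IsEndomorphism d (skew φ G d) := by
  refine ⟨?_, Pool.Agent.Zk42.PN.mor_skew hd hφ.2 hG⟩
  rintro (i | j)
  · exact (hφ.1 i).rename_isHomogeneous
  · refine IsHomogeneous.add ?_ (hG j).rename_isHomogeneous
    have := (isHomogeneous_X K (Sum.inr j : Fin (M + 1) ⊕ Fin m)).pow d
    rwa [one_mul] at this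

theorem result (d p n : ℕ) (h : Admissible d p n) (D R : ℕ) :
    -- all maps `(x_i) ↦ (x_i ^ d + c_i)` in all dimensions
    (∃ B : ℕ, ∀ (K : Type) [Field K] [NumberField K], Module.finrank ℚ K ≤ D →
      classes p n K ≤ R → ∀ (N : ℕ) (c : Fin N → K),
      IsEndomorphism d (split c d) ∧ AtMost ((N + 1) * B ^ N) (split c d)) ∧
    -- skew products
    (∀ M m B₀ : ℕ, ∃ B : ℕ, ∀ (K : Type) [Field K] [NumberField K], Module.finrank ℚ K ≤ D →
      classes p n K ≤ R → ∀ φ : Fin (M + 1) → MvPolynomial (Fin (M + 1)) K,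
      IsEndomorphism d φ → AtMost B₀ φ → PeriodicFixed p φ →
      ∀ G : Fin m → MvPolynomial (Fin (M + 1)) K, (∀ j, (G j).IsHomogeneous d) →
      IsEndomorphism d (skew φ G d) ∧ AtMost B (skew φ G d)) := by
  have hd2 : 2 ≤ d := Pool.Agent.Zk42.UT.Tr.two h
  refine ⟨?_, fun M m B₀ => ?_⟩
  · obtain ⟨B, hB1, hB⟩ := Pool.Agent.Zk42.UT.uni h D R
    refine ⟨B, fun K _ _ hD hR N c => ⟨⟨Pool.Agent.Zk42.UT.hom_split c,
      Pool.Agent.Zk42.UT.mor_split (by omega) c⟩, ?_⟩⟩
    refine Pool.Agent.Zk42.UT.split_count hd2 hB1 (fun b Z hZ => ?_) c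
    refine hB K hD hR 1 one_ne_zero b Z fun z hz => ?_
    rw [one_pow, inv_one]
    exact hZ z hz
  · obtain ⟨B, hB⟩ := Pool.Agent.Zk42.UT.skew_unif h D R M m B₀
    exact ⟨B, fun K _ _ hD hR φ hφ hφB hper G hG => ⟨endo_skew (by omega) hφ hG,
      hB K hD hR φ hφ.1 hφ.2 hφB hper G hG⟩⟩

end Pool.Agent.Results.MP_13bc7b_nt.UniformInTheField
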